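import Pool.Agent.W564.SC.Defs

/-!
# Project SC, part TF: the family `F ∘ R_α`
-/

open scoped Manifold ContDiff Topology
open Filter Set Metric

universe u

namespace Pool.Agent.W315.SC

open Pool.Agent.H718R2.G Pool.Agent.W564.SC

theorem tf : S_TF.{u} := by
  intro k n N _ _ _ _ r R hR F
  have hr : (r : WithTop ℕ∞) ≤ ∞ := by exact_mod_cast le_top
  have hRs : ∀ α : V k, ContMDiff (𝓡 n) (𝓡 n) ∞ (R α) := by
    intro α
    exact hR.smooth.comp (contMDiff_const.prodMk contMDiff_id)
  have hinv : ∀ α y, R (-α) (R α y) = y := by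
    intro α y
    rw [← hR.add, neg_add_cancel, hR.zero]
  have hinv' : ∀ α y, R α (R (-α) y) = y := by
    intro α y
    rw [← hR.add, add_neg_cancel, hR.zero]
  let Rd : V k → DiffM n N r := fun α =>
    { toFun := R α
      invFun := R (-α)
      left_inv := hinv α
      right_inv := hinv' α
      contMDiff_toFun := (hRs α).of_le hr
      contMDiff_invFun := (hRs (-α)).of_le hr }
  refine ⟨fun α => (Rd α).trans F, fun α y => rfl, ?_, ?_⟩
  · ext y
    change F (R 0 y) = F y
    rw [hR.zero]
  · intro y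
    have h : ContMDiff ((𝓡 k).prod (𝓡 n)) (𝓡 n) r (fun q : V k × N => F (R q.1 q.2)) :=
      F.contMDiff.comp (hR.smooth.of_le hr)
    exact h _

end Pool.Agent.W315.SC
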